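import Pool.Agent.Q75.IS.Stm

set_option autoImplicit false

open Finset

namespace Pool.Agent.Q179.IS

open Pool.Agent.Q75.IS

lemma law_le_one {P : ℕ → ℝ} {M : ℕ} (hP : Law P M) {i : ℕ} (hi : i < M) : P i ≤ 1 := by
  rw [← hP.sum]
  exact Finset.single_le_sum (f := P) (fun j _ => hP.nonneg j) (Finset.mem_range.2 hi)

lemma FF_nonneg {P : ℕ → ℝ} {M b N : ℕ} {a : ℝ} (hP : ∀ i, 0 ≤ P i) (ha : 0 ≤ a) :
    0 ≤ FF P M b a N := by
  unfold FF
  have h1 : 0 ≤ ∑ i ∈ Ico b M, P i / (P i + a) :=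
    Finset.sum_nonneg fun i _ => div_nonneg (hP i) (add_nonneg (hP i) ha)
  positivity

theorem t_CA (h1 : S_DEL) (h2 : S_GE) : S_CA := by
  intro ε hε
  classical
  set δ : ℝ := min ε 1 / 4 with hδ
  have hδ0 : 0 < δ := by positivity
  have hδ1 : δ ≤ 1 / 4 := by
    rw [hδ]
    have := min_le_right ε 1
    linarith
  have hδε : 4 * δ ≤ ε := by
    rw [hδ]
    have := min_le_left ε 1
    linarith
  set K : ℝ := 54 / δ ^ 3 with hK
  set η : ℝ := δ / 3 with hη
  have hK0 : 0 < K := by positivity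
  have hKδ : K * δ ^ 3 = 54 := by
    rw [hK]
    field_simp
  have hδ3 : δ ^ 3 ≤ δ := by nlinarith [hδ0, hδ1, mul_pos hδ0 hδ0]
  have hKδ' : 54 ≤ K * δ := by
    have := mul_le_mul_of_nonneg_left hδ3 hK0.le
    linarith
  have hK1 : 1 ≤ K := by
    by_contra h
    push Not at h
    nlinarith
  refine ⟨δ / (K + 2), by positivity, max (4 * K / δ) (24 / δ), ?_⟩
  intro P M N a hP hN ha hpsi hc hC
  set F := FF P M 2 a N with hF
  have hC1 : 4 * K / δ ≤ F := (le_max_left _ _).trans hC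
  have hC2 : 24 / δ ≤ F := (le_max_right _ _).trans hC
  have hF0 : 0 < F := lt_of_lt_of_le (by positivity) hC2
  have hC1' : 4 * K ≤ δ * F := by
    rw [div_le_iff₀ hδ0] at hC1
    linarith
  have hC2' : 24 ≤ δ * F := by
    rw [div_le_iff₀ hδ0] at hC2
    linarith
  have hN0 : (0 : ℝ) < N := by exact_mod_cast hN
  have hN1 : (1 : ℝ) ≤ N := by exact_mod_cast hN
  have hcK : (K + 2) * (a * N) ≤ δ * F := by
    have h3 : (K + 2) * (δ / (K + 2) * F) = δ * F := by
      field_simp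
    have h4 := mul_le_mul_of_nonneg_left hc (by positivity : (0 : ℝ) ≤ K + 2)
    linarith
  set q : ℕ → ℝ := fun i => P i / (P i + a) ^ 2 with hq
  have hq0 : ∀ i, 0 ≤ q i := fun i => div_nonneg (hP.nonneg i) (sq_nonneg _)
  have hqs : ∑ i ∈ Ico 2 M, q i ≤ N := hpsi
  set J := (Ico 2 M).filter (fun j => 0 < P j ∧ K * a ≤ P j ∧ K / N ≤ P j) with hJ
  have hJm : ∀ j ∈ J, 2 ≤ j ∧ j < M ∧ 0 < P j ∧ K * a ≤ P j ∧ K / N ≤ P j := by
    intro j hj
    rw [hJ, Finset.mem_filter, Finset.mem_Ico] at hj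
    exact ⟨hj.1.1, hj.1.2, hj.2.1, hj.2.2.1, hj.2.2.2⟩
  have ht1 : ∀ i, P i / (P i + a) ≤ 1 := fun i =>
    div_le_one_of_le₀ (by linarith) (add_nonneg (hP.nonneg i) ha)
  -- the letters outside of J
  have hout : ∀ i ∈ (Ico 2 M).filter (fun j => ¬ (0 < P j ∧ K * a ≤ P j ∧ K / N ≤ P j)),
      P i / (P i + a) ≤ ((K + 1) * a + 4 * K / N) * q i := by
    intro i hi
    rw [Finset.mem_filter] at hi
    have hi2 := hi.2
    have hi0 := hP.nonneg i
    rcases hi0.eq_or_lt with h3 | h3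
    · rw [hq]
      simp [← h3]
    · have hpa : 0 < P i + a := by linarith
      have hcomb : ((K + 1) * a + 4 * K / N) * q i = (K + 1) * a * q i + 4 * K / N * q i := by ring
      have hn1 : 0 ≤ (K + 1) * a * q i := mul_nonneg (by positivity) (hq0 i)
      have hn2 : 0 ≤ 4 * K / N * q i := mul_nonneg (by positivity) (hq0 i)
      by_cases h4 : K * a ≤ P i
      · have h5 : P i < K / N := by
          by_contra h5
          exact hi2 ⟨h3, h4, not_lt.1 h5⟩
        have h6 : P i * N < K := by rwa [lt_div_iff₀ hN0] at h5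
        have h7 : a ≤ P i := by nlinarith
        have h8 : 1 ≤ 4 * K / N * q i := by
          rw [hq]
          change 1 ≤ 4 * K / N * (P i / (P i + a) ^ 2)
          rw [div_mul_div_comm, le_div_iff₀ (by positivity), one_mul]
          have h9 : (P i + a) ^ 2 ≤ 4 * P i ^ 2 := by nlinarith
          calc (N : ℝ) * (P i + a) ^ 2 ≤ N * (4 * P i ^ 2) :=
                mul_le_mul_of_nonneg_left h9 hN0.le
            _ = 4 * (P i * N) * P i := by ring
            _ ≤ 4 * K * P i := by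
                apply mul_le_mul_of_nonneg_right _ h3.le
                linarith
        linarith [ht1 i]
      · push Not at h4
        have h5 : P i / (P i + a) = (P i + a) * q i := by
          rw [hq]
          field_simp
        have h6 : (P i + a) * q i ≤ (K + 1) * a * q i := by
          apply mul_le_mul_of_nonneg_right _ (hq0 i)
          linarith
        linarith
  have hsplit : ∑ i ∈ Ico 2 M, P i / (P i + a) =
      ∑ i ∈ J, P i / (P i + a) +
        ∑ i ∈ (Ico 2 M).filter (fun j => ¬ (0 < P j ∧ K * a ≤ P j ∧ K / N ≤ P j)),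
          P i / (P i + a) := (Finset.sum_filter_add_sum_filter_not _ _ _).symm
  have hsJ : ∑ i ∈ J, P i / (P i + a) ≤ J.card := by
    calc ∑ i ∈ J, P i / (P i + a) ≤ ∑ i ∈ J, (1 : ℝ) := Finset.sum_le_sum fun i _ => ht1 i
      _ = J.card := by simp
  have hso : ∑ i ∈ (Ico 2 M).filter (fun j => ¬ (0 < P j ∧ K * a ≤ P j ∧ K / N ≤ P j)),
      P i / (P i + a) ≤ (K + 1) * (a * N) + 4 * K := by
    calc _ ≤ ∑ i ∈ (Ico 2 M).filter (fun j => ¬ (0 < P j ∧ K * a ≤ P j ∧ K / N ≤ P j)),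
          ((K + 1) * a + 4 * K / N) * q i := Finset.sum_le_sum hout
      _ = ((K + 1) * a + 4 * K / N) *
          ∑ i ∈ (Ico 2 M).filter (fun j => ¬ (0 < P j ∧ K * a ≤ P j ∧ K / N ≤ P j)), q i := by
            rw [Finset.mul_sum]
      _ ≤ ((K + 1) * a + 4 * K / N) * N := by
            apply mul_le_mul_of_nonneg_left _ (by positivity)
            exact (Finset.sum_le_sum_of_subset_of_nonneg (Finset.filter_subset _ _)
              fun i _ _ => hq0 i).trans hqs
      _ = (K + 1) * (a * N) + 4 * K := by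
            field_simp
  have hFJ : (1 - 2 * δ) * F ≤ J.card := by
    have h3 : F = a * N + ∑ i ∈ Ico 2 M, P i / (P i + a) := rfl
    linarith
  have hFJ2 : F / 2 ≤ J.card := by nlinarith
  -- the sum of the reciprocals
  have hJq : ∀ j ∈ J, 1 / P j ≤ (1 + 1 / K) ^ 2 * q j := by
    intro j hj
    obtain ⟨_, _, h3, h4, _⟩ := hJm j hj
    have h5 : P j + a ≤ (1 + 1 / K) * P j := by
      have h6 : a ≤ 1 / K * P j := by
        rw [one_div, inv_mul_eq_div, le_div_iff₀ hK0]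
        linarith
      linarith
    have h6 : (P j + a) ^ 2 ≤ ((1 + 1 / K) * P j) ^ 2 := by
      apply pow_le_pow_left₀ _ h5
      linarith
    rw [hq]
    change 1 / P j ≤ (1 + 1 / K) ^ 2 * (P j / (P j + a) ^ 2)
    rw [mul_div_assoc', div_le_div_iff₀ h3 (by positivity)]
    calc 1 * (P j + a) ^ 2 ≤ ((1 + 1 / K) * P j) ^ 2 := by rw [one_mul]; exact h6
      _ = (1 + 1 / K) ^ 2 * P j * P j := by ring
  set S := ∑ j ∈ J, 1 / P j with hS
  have hSN : S ≤ (1 + 1 / K) ^ 2 * N := by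
    calc S ≤ ∑ j ∈ J, (1 + 1 / K) ^ 2 * q j := Finset.sum_le_sum hJq
      _ = (1 + 1 / K) ^ 2 * ∑ j ∈ J, q j := by rw [Finset.mul_sum]
      _ ≤ (1 + 1 / K) ^ 2 * N := by
          apply mul_le_mul_of_nonneg_left _ (by positivity)
          exact (Finset.sum_le_sum_of_subset_of_nonneg (Finset.filter_subset _ _)
              fun i _ _ => hq0 i).trans hqs
  have hK3 : (1 + 1 / K) ^ 2 ≤ 1 + 3 / K := by
    have h3 : 1 / K ≤ 1 := by
      rw [div_le_one hK0]
      exact hK1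
    have h4 : 0 ≤ 1 / K := by positivity
    have h5 : 3 / K = 3 * (1 / K) := by ring
    rw [h5]
    nlinarith
  have h3K : 3 / K ≤ δ / 3 := by
    rw [div_le_iff₀ hK0]
    linarith
  have hcS : (J.card : ℝ) ≤ S := by
    calc (J.card : ℝ) = ∑ j ∈ J, (1 : ℝ) := by simp
      _ ≤ S := by
        apply Finset.sum_le_sum
        intro j hj
        obtain ⟨_, h3, h4, _, _⟩ := hJm j hj
        rw [le_div_iff₀ h4, one_mul]
        exact law_le_one hP h3
  have hN8 : 1 ≤ δ / 3 * N := by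
    have h3 : (1 + 1 / K) ^ 2 ≤ 2 := by linarith
    have h4 : F / 2 ≤ 2 * N := by
      have := mul_le_mul_of_nonneg_right h3 hN0.le
      linarith
    nlinarith
  -- the number r
  set r : ℕ := ⌈((1 + 1 / K) ^ 2 + η) * N⌉₊ with hr
  have hr1 : ((1 + 1 / K) ^ 2 + η) * N ≤ r := Nat.le_ceil _
  have hr2 : (r : ℝ) < ((1 + 1 / K) ^ 2 + η) * N + 1 := Nat.ceil_lt_add_one (by positivity)
  have hr3 : (r : ℝ) ≤ (1 + δ) * N := by
    have h3 := mul_le_mul_of_nonneg_right hK3 hN0.le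
    have h4 := mul_le_mul_of_nonneg_right h3K hN0.le
    rw [hη] at hr2
    nlinarith
  have hrS : η * N ≤ r - S := by
    have : ((1 + 1 / K) ^ 2 + η) * N = (1 + 1 / K) ^ 2 * N + η * N := by ring
    linarith
  have hηN : 0 < η * N := by positivity
  have hSr : S < r := by linarith
  have hNr : N ≤ r := by
    have h3 : (N : ℝ) ≤ r := by
      have h4 : 1 ≤ (1 + 1 / K) ^ 2 := by
        have : 0 ≤ 1 / K := by positivity
        nlinarith
      have h5 := mul_le_mul_of_nonneg_right h4 hN0.le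
      linarith
    exact_mod_cast h3
  have hB : ∀ j ∈ J, 2 ≤ j ∧ j < M ∧ j < M ∧ 0 < P j ∧ 1 / P j ≤ N / K := by
    intro j hj
    obtain ⟨h3, h4, h5, _, h7⟩ := hJm j hj
    refine ⟨h3, h4, h4, h5, ?_⟩
    rw [div_le_div_iff₀ h5 hK0, one_mul]
    rw [div_le_iff₀ hN0] at h7
    linarith
  have hGE := h2 P M M r 0 J (N / K) hP (by positivity) hP.two hB hSr
  have hloss : r * (N / K) / (r - S) ^ 2 ≤ δ := by
    have h3 : (η * N) ^ 2 ≤ (r - S) ^ 2 := pow_le_pow_left₀ hηN.le hrS 2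
    rw [div_le_iff₀ (by positivity)]
    have h4 : δ * (η * N) ^ 2 ≤ δ * (r - S) ^ 2 := mul_le_mul_of_nonneg_left h3 hδ0.le
    refine le_trans ?_ h4
    have h5 : (r : ℝ) ≤ 6 * N := by nlinarith
    have h6 : r * (N / K) ≤ 6 * N * (N / K) := mul_le_mul_of_nonneg_right h5 (by positivity)
    refine h6.trans ?_
    have h7 : 6 * (N : ℝ) * (N / K) = 6 / K * N ^ 2 := by ring
    have h8 : δ * (η * N) ^ 2 = δ ^ 3 / 9 * N ^ 2 := by
      rw [hη]
      ring
    rw [h7, h8]
    apply mul_le_mul_of_nonneg_right _ (by positivity)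
    rw [div_le_iff₀ hK0]
    linarith
  have hell0 : 0 ≤ ell P M M 0 := ell_nonneg hP.nonneg _ _
  have hellr : (1 - δ) * ((1 - 2 * δ) * F) ≤ ell P M 2 r := by
    have h3 : (J.card : ℝ) * (1 - δ) ≤ J.card * (1 - r * (N / K) / (r - S) ^ 2) := by
      apply mul_le_mul_of_nonneg_left _ (Nat.cast_nonneg _)
      linarith
    have h4 : (1 - δ) * ((1 - 2 * δ) * F) ≤ (1 - δ) * J.card :=
      mul_le_mul_of_nonneg_left hFJ (by linarith)
    rw [add_zero] at hGE
    linarith
  have hdel := (h1 P M hP 2 r N hNr).1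
  have hell : 0 ≤ ell P M 2 N := ell_nonneg hP.nonneg _ _
  have h3 : (N : ℝ) * ((1 - δ) * ((1 - 2 * δ) * F)) ≤ N * ((1 + δ) * ell P M 2 N) := by
    calc (N : ℝ) * ((1 - δ) * ((1 - 2 * δ) * F)) ≤ N * ell P M 2 r :=
          mul_le_mul_of_nonneg_left hellr hN0.le
      _ ≤ r * ell P M 2 N := hdel
      _ ≤ ((1 + δ) * N) * ell P M 2 N := mul_le_mul_of_nonneg_right hr3 hell
      _ = N * ((1 + δ) * ell P M 2 N) := by ring
  have h4 := le_of_mul_le_mul_left h3 hN0
  have h5 : (1 + δ) * ((1 - 4 * δ) * F) ≤ (1 + δ) * ell P M 2 N := by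
    refine le_trans ?_ h4
    have h6 : (1 + δ) * (1 - 4 * δ) ≤ (1 - δ) * (1 - 2 * δ) := by nlinarith
    have := mul_le_mul_of_nonneg_right h6 hF0.le
    linarith
  have h6 := le_of_mul_le_mul_left h5 (by linarith)
  have h7 : (1 - ε) * F ≤ (1 - 4 * δ) * F := by
    apply mul_le_mul_of_nonneg_right _ hF0.le
    linarith
  linarith

end Pool.Agent.Q179.IS
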