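import Pool.Agent.Q75.IS.Stm

set_option autoImplicit false

open Finset

namespace Pool.Agent.Q179.IS

open Pool.Agent.Q75.IS

theorem t_CB (h1 : S_EXIT) (h2 : S_UP) (h3 : S_LOSS1) (h4 : S_LOSS2) (h5 : S_DEL) (h6 : S_GE) :
    S_CB := by
  intro ε hε c' hc'
  classical
  set c : ℝ := min c' 1 with hcdef
  have hc0 : 0 < c := lt_min hc' one_pos
  have hc1 : c ≤ 1 := min_le_right _ _
  have hcc : c ≤ c' := min_le_left _ _
  set u : ℝ := min ε 1 / 64 with hu
  have hu0 : 0 < u := by positivity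
  have hu1 : u ≤ 1 / 64 := by
    rw [hu]
    have := min_le_right ε 1
    linarith
  have huε : 64 * u ≤ ε := by
    rw [hu]
    have := min_le_left ε 1
    linarith
  set κ : ℝ := c * u ^ 2 with hκ
  have hκ0 : 0 < κ := by positivity
  have hκu : κ ≤ u ^ 2 := by
    rw [hκ]
    nlinarith [sq_nonneg u]
  have hκu' : κ ≤ u := by nlinarith
  set K : ℕ := ⌈4 / κ⌉₊ with hK
  have hK4 : 4 / κ ≤ K := Nat.le_ceil _
  have hK0 : (0 : ℝ) < K := lt_of_lt_of_le (by positivity) hK4
  have hK1 : 1 ≤ K := by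
    have : 0 < K := by exact_mod_cast hK0
    omega
  refine ⟨max (max (4 / κ) (32 * K / κ ^ 2)) (max (1 / (2 * u ^ 2 * c)) (1 / (32 * u * c))), ?_⟩
  intro P M N a hP hN ha hPa hpsi hcF hC
  set F := FF P M 2 a N with hF
  have hC1 : 4 / κ ≤ F := (le_max_left _ _).trans ((le_max_left _ _).trans hC)
  have hC2 : 32 * K / κ ^ 2 ≤ F := (le_max_right _ _).trans ((le_max_left _ _).trans hC)
  have hC3 : 1 / (2 * u ^ 2 * c) ≤ F := (le_max_left _ _).trans ((le_max_right _ _).trans hC)
  have hC4 : 1 / (32 * u * c) ≤ F := (le_max_right _ _).trans ((le_max_right _ _).trans hC)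
  have hF0 : 0 < F := lt_of_lt_of_le (by positivity) hC1
  have hN0 : (0 : ℝ) < N := by exact_mod_cast hN
  have hsumP : 0 ≤ ∑ i ∈ Ico 2 M, P i := Finset.sum_nonneg fun i _ => hP.nonneg i
  have hcF2 : c * F ≤ a * N := (mul_le_mul_of_nonneg_right hcc hF0.le).trans hcF
  have haNF : a * N ≤ F := by
    have h7 : F = a * N + ∑ i ∈ Ico 2 M, P i / (P i + a) := rfl
    have h8 : 0 ≤ ∑ i ∈ Ico 2 M, P i / (P i + a) :=
      Finset.sum_nonneg fun i _ => div_nonneg (hP.nonneg i) (add_nonneg (hP.nonneg i) ha.le)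
    linarith
  have haN0 : 0 < a * N := by positivity
  -- the error term
  have hE1 : F / K ≤ κ / 4 * F := by
    rw [div_le_iff₀ hK0]
    rw [div_le_iff₀ hκ0] at hK4
    nlinarith
  have hE2 : 1 ≤ κ / 4 * F := by
    rw [div_le_iff₀ hκ0] at hC1
    linarith
  have hE3 : Real.sqrt (8 * K * F) ≤ κ / 2 * F := by
    rw [Real.sqrt_le_iff]
    refine ⟨by positivity, ?_⟩
    rw [div_le_iff₀ (by positivity)] at hC2
    nlinarith
  have hE : (1 - κ) * F ≤ F - (F / K + 1 + Real.sqrt (8 * K * F)) := by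
    linarith
  have ha1 : a + ∑ i ∈ Ico 2 M, P i ≤ 1 := by linarith
  have hfin : ∀ x : ℝ, 0 ≤ x → x ≤ ε → (1 - ε) * F ≤ (1 - x) * F := fun x _ hx =>
    mul_le_mul_of_nonneg_right (by linarith) hF0.le
  rcases h1 P M N K a hP ha.le ha1 hK1 with ⟨s, hs, hex⟩ | ⟨i, hi2, hiM, hex⟩
  · -- time exit
    have hex' := hE.trans hex
    have hsN : (s : ℝ) ≤ N := by exact_mod_cast hs
    have hs0 : (0 : ℝ) ≤ s := Nat.cast_nonneg s
    have hq : (s : ℝ) / (2 * N) ≤ 1 / 2 := by
      rw [div_le_div_iff₀ (by positivity) (by norm_num)]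
      linarith
    have hq0 : 0 ≤ (s : ℝ) / (2 * N) := by positivity
    have hup := h2 P M 2 (N - s) (a * (1 + s / (2 * N))) hP le_rfl hP.two (by positivity)
      (by nlinarith)
    have hl := h3 P M N s a hP.nonneg ha hN hpsi hs
    have h7 : a * s ^ 2 / (4 * N) ≤ κ * F := by linarith
    rw [div_le_iff₀ (by positivity)] at h7
    have h8 : (a * s) ^ 2 ≤ (2 * u * F) ^ 2 := by
      calc (a * s) ^ 2 = a * (a * s ^ 2) := by ring
        _ ≤ a * (κ * F * (4 * N)) := mul_le_mul_of_nonneg_left h7 ha.le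
        _ = 4 * κ * F * (a * N) := by ring
        _ ≤ 4 * κ * F * F := mul_le_mul_of_nonneg_left haNF (by positivity)
        _ ≤ 4 * u ^ 2 * F * F := by
            apply mul_le_mul_of_nonneg_right _ hF0.le
            apply mul_le_mul_of_nonneg_right _ hF0.le
            linarith
        _ = (2 * u * F) ^ 2 := by ring
    have h9 : a * s ≤ 2 * u * F :=
      (pow_le_pow_iff_left₀ (by positivity) (by positivity) two_ne_zero).1 h8
    have h10 := (h5 P M hP 2 N (N - s) (Nat.sub_le _ _)).2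
    have h11 := hfin (3 * u) (by positivity) (by linarith)
    have h12 : κ * F ≤ u * F := mul_le_mul_of_nonneg_right hκu' hF0.le
    linarith
  · -- letter exit
    have hex' := hE.trans hex
    set q : ℕ → ℝ := fun i => P i / (P i + a) ^ 2 with hq
    have hq0 : ∀ i, 0 ≤ q i := fun i => div_nonneg (hP.nonneg i) (sq_nonneg _)
    set A : ℝ := ∑ j ∈ Ico 2 i, P j / (P j + a) ^ 2 with hA
    have hA0 : 0 ≤ A := Finset.sum_nonneg fun j _ => hq0 j
    have hAN : A ≤ N := by
      rw [← hpsi]
      exact Finset.sum_le_sum_of_subset_of_nonneg (Finset.Ico_subset_Ico_right hiM)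
        fun j _ _ => hq0 j
    have hAN2 : A / (2 * N) ≤ 1 / 2 := by
      rw [div_le_div_iff₀ (by positivity) (by norm_num)]
      linarith
    have hAN0 : 0 ≤ A / (2 * N) := by positivity
    have hsub : ∑ j ∈ Ico i M, P j ≤ ∑ j ∈ Ico 2 M, P j :=
      Finset.sum_le_sum_of_subset_of_nonneg (Finset.Ico_subset_Ico_left hi2)
        fun j _ _ => hP.nonneg j
    have hup := h2 P M i N (a * (1 - A / (2 * N))) hP hi2 hiM
      (mul_nonneg ha.le (by linarith)) (by nlinarith)
    have hl := h4 P M N i a A hP.nonneg ha hN hpsi hi2 hiM hA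
    have h7 : a * A ^ 2 / (4 * N) ≤ κ * F := by linarith
    rw [div_le_iff₀ (by positivity)] at h7
    have h8 : A ≤ 2 * u * N := by
      have h9 : a * A ^ 2 ≤ a * (2 * u * N) ^ 2 := by
        calc a * A ^ 2 ≤ κ * F * (4 * N) := h7
          _ = 4 * u ^ 2 * N * (c * F) := by
              rw [hκ]
              ring
          _ ≤ 4 * u ^ 2 * N * (a * N) := mul_le_mul_of_nonneg_left hcF2 (by positivity)
          _ = a * (2 * u * N) ^ 2 := by ring
      have h10 := le_of_mul_le_mul_left h9 ha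
      exact (pow_le_pow_iff_left₀ hA0 (by positivity) two_ne_zero).1 h10
    -- frequent letters
    set J := (Ico 2 i).filter (fun j => a ≤ P j) with hJ
    have hJm : ∀ j ∈ J, 2 ≤ j ∧ j < i ∧ a ≤ P j := by
      intro j hj
      rw [hJ, Finset.mem_filter, Finset.mem_Ico] at hj
      exact ⟨hj.1.1, hj.1.2, hj.2⟩
    have hrh1 : ∀ j, rh P a j ≤ 1 := fun j =>
      div_le_one_of_le₀ (by linarith) (add_nonneg (hP.nonneg j) ha.le)
    have hrhq : ∀ j, rh P a j = (P j + a) * q j := by
      intro j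
      have : 0 < P j + a := by linarith [hP.nonneg j]
      rw [hq]
      unfold rh
      field_simp
    have hsplit : ∑ j ∈ Ico 2 i, rh P a j = ∑ j ∈ J, rh P a j +
        ∑ j ∈ (Ico 2 i).filter (fun j => ¬ a ≤ P j), rh P a j :=
      (Finset.sum_filter_add_sum_filter_not _ _ _).symm
    have hsJ : ∑ j ∈ J, rh P a j ≤ J.card := by
      calc ∑ j ∈ J, rh P a j ≤ ∑ j ∈ J, (1 : ℝ) := Finset.sum_le_sum fun j _ => hrh1 j
        _ = J.card := by simp
    have hso : ∑ j ∈ (Ico 2 i).filter (fun j => ¬ a ≤ P j), rh P a j ≤ 4 * u * F := by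
      calc ∑ j ∈ (Ico 2 i).filter (fun j => ¬ a ≤ P j), rh P a j
          ≤ ∑ j ∈ (Ico 2 i).filter (fun j => ¬ a ≤ P j), 2 * a * q j := by
            apply Finset.sum_le_sum
            intro j hj
            rw [Finset.mem_filter] at hj
            rw [hrhq]
            apply mul_le_mul_of_nonneg_right _ (hq0 j)
            linarith [hj.2]
        _ = 2 * a * ∑ j ∈ (Ico 2 i).filter (fun j => ¬ a ≤ P j), q j := by rw [Finset.mul_sum]
        _ ≤ 2 * a * A := by
            apply mul_le_mul_of_nonneg_left _ (by positivity)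
            exact Finset.sum_le_sum_of_subset_of_nonneg (Finset.filter_subset _ _)
              fun j _ _ => hq0 j
        _ ≤ 2 * a * (2 * u * N) := mul_le_mul_of_nonneg_left h8 (by positivity)
        _ = 4 * u * (a * N) := by ring
        _ ≤ 4 * u * F := mul_le_mul_of_nonneg_left haNF (by positivity)
    have hmain : (1 - 5 * u) * F ≤ J.card + ell P M i N := by
      have : κ * F ≤ u * F := mul_le_mul_of_nonneg_right hκu' hF0.le
      linarith
    set S := ∑ j ∈ J, 1 / P j with hS
    have hSN : S ≤ 8 * u * N := by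
      calc S ≤ ∑ j ∈ J, 4 * q j := by
            apply Finset.sum_le_sum
            intro j hj
            have h9 := (hJm j hj).2.2
            have h10 : 0 < P j := lt_of_lt_of_le ha h9
            change 1 / P j ≤ 4 * (P j / (P j + a) ^ 2)
            rw [mul_div_assoc', div_le_div_iff₀ h10 (by positivity)]
            nlinarith
        _ = 4 * ∑ j ∈ J, q j := by rw [Finset.mul_sum]
        _ ≤ 4 * A := by
            apply mul_le_mul_of_nonneg_left _ (by norm_num)
            exact Finset.sum_le_sum_of_subset_of_nonneg (Finset.filter_subset _ _)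
              fun j _ _ => hq0 j
        _ ≤ 8 * u * N := by linarith
    have hN2 : 2 * (c * F) ≤ N := by
      have h9 : a ≤ 1 / 2 := by linarith
      have h10 : a * N ≤ 1 / 2 * N := mul_le_mul_of_nonneg_right h9 hN0.le
      linarith
    have huN : 1 ≤ 16 * u * N := by
      rw [div_le_iff₀ (by positivity)] at hC4
      have h9 : 16 * u * (2 * (c * F)) ≤ 16 * u * N :=
        mul_le_mul_of_nonneg_left hN2 (by positivity)
      linarith
    set r : ℕ := ⌈16 * u * N⌉₊ with hr
    have hr1 : 16 * u * N ≤ r := Nat.le_ceil _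
    have hr2 : (r : ℝ) < 16 * u * N + 1 := Nat.ceil_lt_add_one (by positivity)
    have hr3 : (r : ℝ) ≤ 32 * u * N := by linarith
    have hrN : (r : ℝ) ≤ N := by nlinarith
    have hrN' : r ≤ N := by exact_mod_cast hrN
    have huN0 : 0 < 8 * u * N := by positivity
    have hSr : S < r := by linarith
    have hrS : 8 * u * N ≤ r - S := by linarith
    have hB : ∀ j ∈ J, 2 ≤ j ∧ j < i ∧ j < M ∧ 0 < P j ∧ 1 / P j ≤ 1 / a := by
      intro j hj
      obtain ⟨h9, h10, h11⟩ := hJm j hj
      exact ⟨h9, h10, by omega, lt_of_lt_of_le ha h11, one_div_le_one_div_of_le ha h11⟩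
    have hGE := h6 P M i r (N - r) J (1 / a) hP (by positivity) hi2 hB hSr
    rw [Nat.add_sub_cancel' hrN'] at hGE
    have hloss : r * (1 / a) / (r - S) ^ 2 ≤ u := by
      have h9 : (8 * u * N) ^ 2 ≤ (r - S) ^ 2 := pow_le_pow_left₀ huN0.le hrS 2
      rw [div_le_iff₀ (by positivity)]
      have h10 : u * (8 * u * N) ^ 2 ≤ u * (r - S) ^ 2 := mul_le_mul_of_nonneg_left h9 hu0.le
      refine le_trans ?_ h10
      rw [mul_one_div, div_le_iff₀ ha]
      refine hr3.trans ?_
      rw [div_le_iff₀ (by positivity)] at hC3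
      have h11 : 1 ≤ 2 * u ^ 2 * (a * N) := by
        have := mul_le_mul_of_nonneg_left hcF2 (by positivity : (0 : ℝ) ≤ 2 * u ^ 2)
        linarith
      have h12 : 32 * u * N * 1 ≤ 32 * u * N * (2 * u ^ 2 * (a * N)) :=
        mul_le_mul_of_nonneg_left h11 (by positivity)
      calc 32 * u * N = 32 * u * N * 1 := by ring
        _ ≤ 32 * u * N * (2 * u ^ 2 * (a * N)) := h12
        _ = u * (8 * u * N) ^ 2 * a := by ring
    have hell : 0 ≤ ell P M i N := ell_nonneg hP.nonneg _ _
    have hdel := (h5 P M hP i N (N - r) (Nat.sub_le _ _)).1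
    rw [Nat.cast_sub hrN'] at hdel
    have hd2 : (1 - 32 * u) * ell P M i N ≤ ell P M i (N - r) := by
      have h9 : (N : ℝ) * ((1 - 32 * u) * ell P M i N) ≤ N * ell P M i (N - r) := by
        refine le_trans ?_ hdel
        have h10 : (N : ℝ) * (1 - 32 * u) ≤ N - r := by linarith
        have := mul_le_mul_of_nonneg_right h10 hell
        linarith
      exact le_of_mul_le_mul_left h9 hN0
    have hJc : (0 : ℝ) ≤ J.card := Nat.cast_nonneg _
    have hd3 : (1 - 32 * u) * J.card ≤ J.card * (1 - r * (1 / a) / (r - S) ^ 2) := by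
      rw [mul_comm]
      apply mul_le_mul_of_nonneg_left _ hJc
      linarith
    have h13 : (1 - 32 * u) * ((1 - 5 * u) * F) ≤ (1 - 32 * u) * (J.card + ell P M i N) :=
      mul_le_mul_of_nonneg_left hmain (by linarith)
    have h14 : (1 - 37 * u) * F ≤ (1 - 32 * u) * ((1 - 5 * u) * F) := by
      have : 1 - 37 * u ≤ (1 - 32 * u) * (1 - 5 * u) := by nlinarith
      have := mul_le_mul_of_nonneg_right this hF0.le
      linarith
    have h15 := hfin (37 * u) (by positivity) (by linarith)
    linarith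

end Pool.Agent.Q179.IS
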