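import Pool.Agent.Q75.IS.Stm

set_option autoImplicit false

open Finset Filter Topology

namespace Pool.Agent.Q179.IS

open Pool.Agent.Q75.IS

/-- the set of values -/
def VS (p : ℕ → ℝ) (t : ℝ) : Set ℝ :=
  {y : ℝ | ∃ x : ℝ, 0 ≤ x ∧ Summable (fun i => t * p i / (t * p i + x)) ∧
    y = x + ∑' i, t * p i / (t * p i + x)}

lemma fI_eq (p : ℕ → ℝ) (t : ℝ) : fI p t = sInf (VS p t) := rfl

lemma quot_nonneg {u x : ℝ} (hu : 0 ≤ u) (hx : 0 ≤ x) : 0 ≤ u / (u + x) :=
  div_nonneg hu (add_nonneg hu hx)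

lemma quot_le_one {u x : ℝ} (hu : 0 ≤ u) (hx : 0 ≤ x) : u / (u + x) ≤ 1 :=
  div_le_one_of_le₀ (by linarith) (add_nonneg hu hx)

lemma quot_mono {u v x : ℝ} (hu : 0 ≤ u) (huv : u ≤ v) (hx : 0 ≤ x) :
    u / (u + x) ≤ v / (v + x) := by
  rcases hu.eq_or_lt with h | h
  · rw [← h, zero_div]
    exact quot_nonneg (hu.trans huv) hx
  · rw [div_le_div_iff₀ (by linarith) (by linarith)]
    nlinarith

lemma quot_anti {u x y : ℝ} (hu : 0 ≤ u) (hx : 0 ≤ x) (hxy : x ≤ y) :
    u / (u + y) ≤ u / (u + x) := by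
  rcases hu.eq_or_lt with h | h
  · rw [← h, zero_div, zero_div]
  · exact div_le_div_of_nonneg_left hu (by linarith) (by linarith)

lemma VS_bdd {p : ℕ → ℝ} (hp : ∀ i, 0 ≤ p i) {t : ℝ} (ht : 0 ≤ t) : ∀ y ∈ VS p t, 0 ≤ y := by
  rintro y ⟨x, hx, _, rfl⟩
  exact add_nonneg hx (tsum_nonneg fun i => quot_nonneg (mul_nonneg ht (hp i)) hx)

lemma VS_bddBelow {p : ℕ → ℝ} (hp : ∀ i, 0 ≤ p i) {t : ℝ} (ht : 0 ≤ t) : BddBelow (VS p t) :=
  ⟨0, fun y hy => VS_bdd hp ht y hy⟩

lemma summable_quot {p : ℕ → ℝ} (hp : ∀ i, 0 ≤ p i) (hs : Summable p) {t x : ℝ} (ht : 0 ≤ t)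
    (hx : 0 < x) : Summable (fun i => t * p i / (t * p i + x)) := by
  refine Summable.of_nonneg_of_le (fun i => quot_nonneg (mul_nonneg ht (hp i)) hx.le) ?_
    (hs.mul_left (t / x))
  intro i
  have h1 : 0 ≤ t * p i := mul_nonneg ht (hp i)
  rw [div_mul_eq_mul_div, div_le_div_iff₀ (by linarith) hx]
  nlinarith

lemma VS_nonempty {p : ℕ → ℝ} (hp : ∀ i, 0 ≤ p i) (hs : Summable p) {t : ℝ} (ht : 0 ≤ t) :
    (VS p t).Nonempty := ⟨_, 1, zero_le_one, summable_quot hp hs ht one_pos, rfl⟩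

lemma fI_nonneg {p : ℕ → ℝ} (hp : ∀ i, 0 ≤ p i) {t : ℝ} (ht : 0 ≤ t) : 0 ≤ fI p t :=
  Real.sInf_nonneg fun y hy => VS_bdd hp ht y hy

lemma fI_le {p : ℕ → ℝ} (hp : ∀ i, 0 ≤ p i) {t x : ℝ} (ht : 0 ≤ t) (hx : 0 ≤ x)
    (hs : Summable (fun i => t * p i / (t * p i + x))) :
    fI p t ≤ x + ∑' i, t * p i / (t * p i + x) :=
  csInf_le (VS_bddBelow hp ht) ⟨x, hx, hs, rfl⟩

lemma fI_mono {p : ℕ → ℝ} (hp : ∀ i, 0 ≤ p i) (hs : Summable p) {t t' : ℝ} (ht : 0 ≤ t)
    (htt : t ≤ t') : fI p t ≤ fI p t' := by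
  rw [fI_eq p t']
  apply le_csInf (VS_nonempty hp hs (ht.trans htt))
  rintro y ⟨x, hx, h1, rfl⟩
  have h2 : ∀ i, t * p i / (t * p i + x) ≤ t' * p i / (t' * p i + x) := fun i =>
    quot_mono (mul_nonneg ht (hp i)) (mul_le_mul_of_nonneg_right htt (hp i)) hx
  have h3 : Summable (fun i => t * p i / (t * p i + x)) :=
    Summable.of_nonneg_of_le (fun i => quot_nonneg (mul_nonneg ht (hp i)) hx) h2 h1
  refine (fI_le hp ht hx h3).trans ?_
  have := h3.tsum_le_tsum h2 h1
  linarith

lemma fI_succ_le {p : ℕ → ℝ} (hp : ∀ i, 0 ≤ p i) (hs : Summable p) {n : ℕ} (hn : 1 ≤ n) :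
    fI p (n + 1 : ℕ) ≤ (1 + 1 / n) * fI p n := by
  have hn0 : (0 : ℝ) < n := by exact_mod_cast hn
  have hc : (0 : ℝ) < 1 + 1 / n := by positivity
  rw [mul_comm, ← div_le_iff₀ hc]
  rw [fI_eq p n]
  apply le_csInf (VS_nonempty hp hs hn0.le)
  rintro y ⟨x, hx, h1, rfl⟩
  rw [div_le_iff₀ hc]
  have hn1 : (0 : ℝ) ≤ ((n + 1 : ℕ) : ℝ) := Nat.cast_nonneg _
  have h2 : ∀ i, ((n + 1 : ℕ) : ℝ) * p i / (((n + 1 : ℕ) : ℝ) * p i + x) ≤
      (1 + 1 / n) * (n * p i / (n * p i + x)) := by
    intro i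
    have h4 : (1 + 1 / (n : ℝ)) * (n * p i / (n * p i + x)) = (n + 1) * p i / (n * p i + x) := by
      field_simp
    rw [h4]
    push_cast
    rcases (hp i).eq_or_lt with h | h
    · rw [← h]
      simp
    · have h5 : 0 < (n : ℝ) * p i := by positivity
      apply div_le_div_of_nonneg_left (by positivity) (by linarith)
      linarith
  have h3 : Summable (fun i => ((n + 1 : ℕ) : ℝ) * p i / (((n + 1 : ℕ) : ℝ) * p i + x)) :=
    Summable.of_nonneg_of_le (fun i => quot_nonneg (mul_nonneg hn1 (hp i)) hx) h2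
      (h1.mul_left _)
  refine (fI_le hp hn1 hx h3).trans ?_
  have h4 := h3.tsum_le_tsum h2 (h1.mul_left _)
  rw [tsum_mul_left] at h4
  have h5 : x ≤ x * (1 + 1 / n) := by
    have : 0 ≤ x * (1 / n) := by positivity
    linarith
  calc x + ∑' i, ((n + 1 : ℕ) : ℝ) * p i / (((n + 1 : ℕ) : ℝ) * p i + x)
      ≤ x * (1 + 1 / n) + (1 + 1 / n) * ∑' i, (n * p i / (n * p i + x)) := add_le_add h5 h4
    _ = (x + ∑' i, (n * p i / (n * p i + x))) * (1 + 1 / n) := by ring

/-- the lower bound by a finite set of letters -/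
lemma fI_lower {p : ℕ → ℝ} (hp : ∀ i, 0 ≤ p i) (hs : Summable p) (s : Finset ℕ) {t : ℝ}
    (ht : 0 ≤ t) : ∑ i ∈ s, t * p i / (t * p i + s.card) ≤ fI p t := by
  rw [fI_eq]
  apply le_csInf (VS_nonempty hp hs ht)
  rintro y ⟨x, hx, h1, rfl⟩
  have hsum : ∑ i ∈ s, t * p i / (t * p i + x) ≤ ∑' i, t * p i / (t * p i + x) :=
    h1.sum_le_tsum s fun i _ => quot_nonneg (mul_nonneg ht (hp i)) hx
  rcases le_total (s.card : ℝ) x with h | h
  · have h2 : ∑ i ∈ s, t * p i / (t * p i + s.card) ≤ s.card := by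
      calc _ ≤ ∑ i ∈ s, (1 : ℝ) := Finset.sum_le_sum fun i _ =>
            quot_le_one (mul_nonneg ht (hp i)) (Nat.cast_nonneg _)
        _ = s.card := by simp
    have h3 : 0 ≤ ∑' i, t * p i / (t * p i + x) :=
      tsum_nonneg fun i => quot_nonneg (mul_nonneg ht (hp i)) hx
    linarith
  · have h2 : ∑ i ∈ s, t * p i / (t * p i + s.card) ≤ ∑ i ∈ s, t * p i / (t * p i + x) :=
      Finset.sum_le_sum fun i _ => quot_anti (mul_nonneg ht (hp i)) hx h
    linarith

lemma tendsto_lower {p : ℕ → ℝ} (s : Finset ℕ) (hs : ∀ i ∈ s, 0 < p i) :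
    Tendsto (fun n : ℕ => ∑ i ∈ s, (n : ℝ) * p i / (n * p i + s.card)) atTop
      (𝓝 (s.card : ℝ)) := by
  have h1 : (s.card : ℝ) = ∑ i ∈ s, (1 : ℝ) := by simp
  nth_rw 2 [h1]
  apply tendsto_finsetSum
  intro i hi
  have hpi := hs i hi
  have h2 : Tendsto (fun n : ℕ => 1 - (s.card : ℝ) / (n * p i + s.card)) atTop (𝓝 (1 - 0)) := by
    apply Tendsto.const_sub
    apply Tendsto.const_div_atTop
    apply tendsto_atTop_add_const_right
    exact Tendsto.atTop_mul_const hpi tendsto_natCast_atTop_atTop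
  rw [sub_zero] at h2
  refine h2.congr' ?_
  filter_upwards [eventually_gt_atTop 0] with n hn
  have hn0 : (0 : ℝ) < n := by exact_mod_cast hn
  have h3 : (n : ℝ) * p i + s.card ≠ 0 := by positivity
  field_simp
  ring

theorem t_FI : S_FI := by
  intro p hp hs1
  have hs : Summable p := hs1.summable
  refine ⟨?_, ?_, ?_⟩
  · intro n hn
    refine ⟨fI_nonneg hp (Nat.cast_nonneg _), fI_mono hp hs (Nat.cast_nonneg _) ?_,
      fI_succ_le hp hs hn⟩
    push_cast
    linarith
  · intro hinf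
    rw [tendsto_atTop]
    intro b
    obtain ⟨m, hm⟩ := exists_nat_gt b
    obtain ⟨s, hs2, hs3⟩ := hinf.exists_subset_card_eq m
    have h1 := tendsto_lower (p := p) s fun i hi => hs2 (Finset.mem_coe.2 hi)
    rw [hs3] at h1
    have h2 := h1.eventually (eventually_gt_nhds hm)
    filter_upwards [h2] with n hn
    have h3 := fI_lower hp hs s (t := n) (Nat.cast_nonneg _)
    rw [hs3] at h3
    linarith
  · intro s hsup
    have hmem : ∀ i, i ∈ s ↔ 0 < p i := fun i => by
      rw [← Finset.mem_coe, ← hsup]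
      rfl
    have h1 := tendsto_lower (p := p) s fun i hi => (hmem i).1 hi
    refine tendsto_of_tendsto_of_tendsto_of_le_of_le' h1 tendsto_const_nhds ?_ ?_
    · exact Eventually.of_forall fun n => fI_lower hp hs s (Nat.cast_nonneg _)
    · filter_upwards [eventually_gt_atTop 0] with n hn
      have hn0 : (0 : ℝ) < n := by exact_mod_cast hn
      have h2 : HasSum (fun i => (n : ℝ) * p i / (n * p i + 0)) (s.card : ℝ) := by
        have h3 : (s.card : ℝ) = ∑ i ∈ s, (n : ℝ) * p i / (n * p i + 0) := by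
          rw [Finset.sum_congr rfl (g := fun _ => (1 : ℝ))]
          · simp
          · intro i hi
            have := (hmem i).1 hi
            rw [add_zero, div_self (by positivity)]
        rw [h3]
        apply hasSum_sum_of_ne_finset_zero
        intro i hi
        rw [hmem] at hi
        have : p i = 0 := le_antisymm (not_lt.1 hi) (hp i)
        rw [this]
        simp
      have h3 := fI_le hp hn0.le le_rfl h2.summable
      rw [h2.tsum_eq, zero_add] at h3
      exact h3

theorem t_FM : S_FM := by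
  intro p hp hs1 n M a hn hM ha
  have hs : Summable p := hs1.summable
  have hn0 : (0 : ℝ) < n := by exact_mod_cast hn
  set m := M - 2 with hm
  set r := 1 - ∑ i ∈ range m, p i with hr
  have htail : ∑' i, p (i + m) = r := by
    have h1 := hs.sum_add_tsum_nat_add m
    rw [hs1.tsum_eq] at h1
    linarith
  have hr0 : 0 ≤ r := by
    rw [← htail]
    exact tsum_nonneg fun i => hp _
  have hFF : ∀ b : ℝ, FF (tr p M) M 2 b n = b * n + ∑ i ∈ range m, p i / (p i + b) := by
    intro b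
    unfold FF
    congr 1
    rw [Finset.sum_Ico_eq_sum_range]
    apply Finset.sum_congr rfl
    intro i _
    have h1 : tr p M (2 + i) = p i := by
      unfold tr
      rw [if_neg (by omega), if_neg (by omega)]
      congr 1
      omega
    rw [h1]
  have hq : ∀ b : ℝ, ∀ i, n * p i / (n * p i + b * n) = p i / (p i + b) := by
    intro b i
    have : (n : ℝ) * p i + b * n = n * (p i + b) := by ring
    rw [this, mul_div_mul_left _ _ hn0.ne']
  -- positive parameter
  have hpos : ∀ b : ℝ, 0 < b → fI p n ≤ b * n + ∑ i ∈ range m, p i / (p i + b) + r / b := by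
    intro b hb
    have h1 := summable_quot hp hs hn0.le (show 0 < b * n by positivity)
    have h2 := fI_le hp hn0.le (by positivity) h1
    simp only [hq] at h1 h2
    have h3 := h1.sum_add_tsum_nat_add m
    have h4 : ∑' i, p (i + m) / (p (i + m) + b) ≤ r / b := by
      have h5 : Summable fun i => p (i + m) / (p (i + m) + b) := (summable_nat_add_iff m).2 h1
      have h6 : Summable fun i => p (i + m) / b := ((summable_nat_add_iff m).2 hs).div_const b
      calc ∑' i, p (i + m) / (p (i + m) + b) ≤ ∑' i, p (i + m) / b := by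
            apply h5.tsum_le_tsum _ h6
            intro i
            apply div_le_div_of_nonneg_left (hp _) hb
            linarith [hp (i + m)]
        _ = r / b := by rw [tsum_div_const, htail]
    linarith
  rw [hFF]
  rcases hr0.eq_or_lt with h0 | h0
  · -- no tail
    rw [← h0, Real.sqrt_zero, mul_zero, sub_zero]
    have hz : ∀ i, i ∉ range m → p i = 0 := by
      intro i hi
      rw [Finset.mem_range, not_lt] at hi
      have h1 : Summable fun i => p (i + m) := (summable_nat_add_iff m).2 hs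
      have h2 := h1.le_tsum (i - m) fun j _ => hp _
      rw [htail, ← h0, Nat.sub_add_cancel hi] at h2
      exact le_antisymm h2 (hp i)
    have h1 : HasSum (fun i => (n : ℝ) * p i / (n * p i + a * n))
        (∑ i ∈ range m, p i / (p i + a)) := by
      simp only [hq]
      apply hasSum_sum_of_ne_finset_zero
      intro i hi
      rw [hz i hi, zero_div]
    have h2 := fI_le hp hn0.le (by positivity) h1.summable
    rw [h1.tsum_eq] at h2
    exact h2
  · have hsq : 0 < Real.sqrt r := Real.sqrt_pos.2 h0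
    have hrr : r / Real.sqrt r = Real.sqrt r := Real.div_sqrt
    rcases le_or_gt (Real.sqrt r) a with h | h
    · have h1 := hpos a (lt_of_lt_of_le hsq h)
      have h2 : r / a ≤ Real.sqrt r := by
        rw [← hrr]
        exact div_le_div_of_nonneg_left hr0 hsq h
      have h3 : 0 ≤ n * Real.sqrt r := by positivity
      linarith
    · have h1 := hpos _ hsq
      rw [hrr] at h1
      have h2 : ∑ i ∈ range m, p i / (p i + Real.sqrt r) ≤ ∑ i ∈ range m, p i / (p i + a) :=
        Finset.sum_le_sum fun i _ => quot_anti (hp i) ha h.le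
      have h3 : 0 ≤ a * n := by positivity
      linarith

end Pool.Agent.Q179.IS
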