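import Pool.Agent.Q75.IS.Stm

set_option autoImplicit false

open Finset

namespace Pool.Agent.Q179.IS

open Pool.Agent.Q75.IS

theorem t_GRID : S_GRID := by
  intro ρ M K S h0 h1 hM hK hS
  classical
  set G : ℕ → ℝ := fun m => ∑ j ∈ Ico 2 m, ρ j with hG
  have hGmono : ∀ m n, m ≤ n → G m ≤ G n := fun m n h =>
    Finset.sum_le_sum_of_subset_of_nonneg (Finset.Ico_subset_Ico_right h) fun j _ _ => h0 j
  have hG2 : G 2 = 0 := by simp [hG]
  have hGM : G M ≤ S := hS
  have hS0 : 0 ≤ S := by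
    have := hGmono 2 M hM
    linarith
  have hK0 : (0 : ℝ) < K := by exact_mod_cast hK
  have hGs : ∀ m, 2 ≤ m → G (m + 1) ≤ G m + 1 := by
    intro m hm
    have h2 : G (m + 1) = G m + ρ m := Finset.sum_Ico_succ_top hm _
    linarith [h1 m]
  set j : ℕ → ℕ := fun k => Nat.findGreatest (fun m => 2 ≤ m ∧ G m ≤ k * S / K) M with hj
  have hp2 : ∀ k : ℕ, (2 ≤ 2 ∧ G 2 ≤ k * S / K) := fun k => ⟨le_rfl, by rw [hG2]; positivity⟩
  have hjs : ∀ k : ℕ, 2 ≤ j k ∧ G (j k) ≤ k * S / K := fun k =>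
    Nat.findGreatest_spec (P := fun m => 2 ≤ m ∧ G m ≤ k * S / K) hM (hp2 k)
  have hjM : ∀ k, j k ≤ M := fun k => Nat.findGreatest_le M
  have hjle : ∀ k m : ℕ, m ≤ M → 2 ≤ m → G m ≤ k * S / K → m ≤ j k := fun k m hm h2 h3 =>
    Nat.le_findGreatest hm ⟨h2, h3⟩
  have hkS : ∀ k : ℕ, (k : ℝ) * S / K ≤ ((k + 1 : ℕ) : ℝ) * S / K := by
    intro k
    push_cast
    gcongr
    linarith
  have hjmono : ∀ k, j k ≤ j (k + 1) := fun k =>
    hjle (k + 1) (j k) (hjM k) (hjs k).1 ((hjs k).2.trans (hkS k))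
  have hjK : j K = M := by
    apply le_antisymm (hjM K)
    apply hjle K M le_rfl hM
    rw [mul_div_cancel_left₀ _ hK0.ne']
    exact hGM
  refine ⟨fun k => if k = 0 then 2 else j k, ?_, ?_, ?_, ?_, ?_⟩
  · simp
  · simp only
    rw [if_neg (by omega), hjK]
  · intro k _
    simp only
    rw [if_neg (by omega : k + 1 ≠ 0)]
    split_ifs
    · exact (hjs _).1
    · exact hjmono k
  · intro k _
    simp only
    split_ifs
    · exact ⟨le_rfl, hM⟩
    · exact ⟨(hjs k).1, hjM k⟩
  · intro k _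
    simp only
    rw [if_neg (by omega : k + 1 ≠ 0)]
    have h3 := (hjs (k + 1)).2
    change G (j (k + 1)) ≤ _
    push_cast at h3
    have h4 : ((k : ℝ) + 1) * S / K = k * S / K + S / K := by ring
    rw [h4] at h3
    split_ifs with hk
    · subst hk
      change G (j (0 + 1)) ≤ G 2 + S / K + 1
      rw [hG2]
      simp only [Nat.cast_zero, zero_mul, zero_div, zero_add] at h3 ⊢
      linarith
    · change G (j (k + 1)) ≤ G (j k) + S / K + 1
      rcases (hjM k).lt_or_eq with h | h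
      · have h5 : (k : ℝ) * S / K < G (j k + 1) := by
          by_contra h6
          have := hjle k (j k + 1) h (by have := (hjs k).1; omega) (not_lt.1 h6)
          omega
        have h6 := hGs (j k) (hjs k).1
        linarith
      · have h5 : j (k + 1) = j k := le_antisymm ((hjM _).trans h.ge) (hjmono k)
        rw [h5]
        have : 0 ≤ S / K := by positivity
        linarith

end Pool.Agent.Q179.IS
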