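import Pool.Agent.Q75.IS.Stm

set_option autoImplicit false

open Finset MeasureTheory ProbabilityTheory Filter Topology

namespace Pool.Agent.Q179.IS

open Pool.Agent.Q75.IS

/-- the letter of a sample -/
def yy (M x : ℕ) : ℕ := if x + 2 < M then x + 2 else 0

/-- the word of the samples `m, …, m + n - 1` -/
def wd {Ω : Type} (X : ℕ → Ω → ℕ) (M m n : ℕ) (ω : Ω) : List ℕ :=
  (List.range n).map (fun k => yy M (X (m + k) ω))

section

variable {Ω : Type} {X : ℕ → Ω → ℕ} {M : ℕ}

lemma wd_zero (m : ℕ) (ω : Ω) : wd X M m 0 ω = [] := rfl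

lemma wd_succ (m n : ℕ) (ω : Ω) : wd X M m (n + 1) ω = yy M (X m ω) :: wd X M (m + 1) n ω := by
  unfold wd
  rw [List.range_succ_eq_map, List.map_cons, List.map_map, add_zero]
  congr 1
  apply List.map_congr_left
  intro k _
  simp only [Function.comp_apply]
  congr 2
  omega

lemma word_eq (n : ℕ) (ω : Ω) : word X M n ω = wd X M 0 n ω := by
  unfold word wd yy
  simp

lemma yy_lt (hM : 2 ≤ M) (x : ℕ) : yy M x < M := by
  unfold yy
  split_ifs <;> omega

lemma split_first (hM : 2 ≤ M) (m n : ℕ) (g : List ℕ → ℝ) (ω : Ω) :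
    g (wd X M m (n + 1) ω) =
      ∑ e ∈ range M, (X m ⁻¹' {x | yy M x = e}).indicator (fun ω => g (e :: wd X M (m + 1) n ω)) ω := by
  rw [wd_succ, Finset.sum_eq_single (yy M (X m ω))]
  · rw [Set.indicator_of_mem]
    rfl
  · intro e _ he
    rw [Set.indicator_of_notMem]
    intro h
    exact he h.symm
  · intro h
    exact absurd (Finset.mem_range.2 (yy_lt hM _)) h

variable [MeasurableSpace Ω]

lemma meas_wd (hX : ∀ k, Measurable (X k)) (hM : 2 ≤ M) (n : ℕ) : ∀ (m : ℕ) (g : List ℕ → ℝ),
    Measurable (fun ω => g (wd X M m n ω)) ∧ ∃ C : ℝ, ∀ ω, |g (wd X M m n ω)| ≤ C := by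
  induction n with
  | zero =>
    intro m g
    simp only [wd_zero]
    exact ⟨measurable_const, |g []|, fun ω => le_rfl⟩
  | succ n ih =>
    intro m g
    constructor
    · have h1 : (fun ω => g (wd X M m (n + 1) ω)) = fun ω => ∑ e ∈ range M,
          (X m ⁻¹' {x | yy M x = e}).indicator (fun ω => g (e :: wd X M (m + 1) n ω)) ω :=
        funext fun ω => split_first hM m n g ω
      rw [h1]
      apply Finset.measurable_sum
      intro e _
      exact (ih (m + 1) (fun w => g (e :: w))).1.indicator
        (hX m (MeasurableSet.of_discrete))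
    · choose C hC using fun e : ℕ => (ih (m + 1) (fun w => g (e :: w))).2
      refine ⟨∑ e ∈ range M, |C e|, fun ω => ?_⟩
      rw [wd_succ]
      have h1 := hC (yy M (X m ω)) ω
      refine h1.trans ((le_abs_self _).trans ?_)
      exact Finset.single_le_sum (f := fun e => |C e|) (fun e _ => abs_nonneg _)
        (Finset.mem_range.2 (yy_lt hM _))

variable {μ : Measure Ω} [IsProbabilityMeasure μ] {p : ℕ → ℝ}

lemma prob_letter (hS : Samp μ X p) (hM : 2 ≤ M) (k : ℕ) {e : ℕ} (he : e < M) :
    μ.real (X k ⁻¹' {x | yy M x = e}) = tr p M e := by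
  have hlt : ∀ m : ℕ, μ.real (X k ⁻¹' (range m : Set ℕ)) = ∑ i ∈ range m, p i := by
    intro m
    have h1 : X k ⁻¹' (range m : Set ℕ) = ⋃ i ∈ range m, X k ⁻¹' {i} := by
      ext ω
      simp
    rw [h1, measureReal_biUnion_finset]
    · exact Finset.sum_congr rfl fun i _ => hS.law k i
    · intro i _ j _ hij
      apply Disjoint.preimage
      simpa using hij
    · intro i _
      exact hS.meas k (MeasurableSet.of_discrete)
  unfold tr
  rcases Nat.eq_zero_or_pos e with h0 | h0
  · rw [if_pos h0]
    have h1 : X k ⁻¹' {x | yy M x = e} = (X k ⁻¹' (range (M - 2) : Set ℕ))ᶜ := by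
      ext ω
      have h3 : yy M (X k ω) = 0 ↔ ¬ (X k ω < M - 2) := by
        unfold yy
        by_cases h2 : X k ω + 2 < M
        · rw [if_pos h2]
          omega
        · rw [if_neg h2]
          omega
      rw [h0]
      simpa using h3
    rw [h1, measureReal_compl (hS.meas k (MeasurableSet.of_discrete)), hlt]
    simp
  · rw [if_neg (by omega)]
    split_ifs with h1
    · have h2 : X k ⁻¹' {x | yy M x = e} = ∅ := by
        ext ω
        have h3 : ¬ (yy M (X k ω) = e) := by
          unfold yy
          by_cases h2 : X k ω + 2 < M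
          · rw [if_pos h2]
            omega
          · rw [if_neg h2]
            omega
        simpa using h3
      rw [h2, measureReal_empty]
    · have h2 : X k ⁻¹' {x | yy M x = e} = X k ⁻¹' {e - 2} := by
        ext ω
        have h3 : yy M (X k ω) = e ↔ X k ω = e - 2 := by
          unfold yy
          by_cases h2 : X k ω + 2 < M
          · rw [if_pos h2]
            omega
          · rw [if_neg h2]
            omega
        simpa using h3
      rw [h2, hS.law k]

/-- the main induction, with constraints on the first `m` samples -/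
lemma law_aux (hS : Samp μ X p) (hM : 2 ≤ M) (n : ℕ) : ∀ (m : ℕ) (A : ℕ → Set ℕ)
    (g : List ℕ → ℝ), ∫ ω in ⋂ k ∈ range m, X k ⁻¹' A k, g (wd X M m n ω) ∂μ =
      (∏ k ∈ range m, μ.real (X k ⁻¹' A k)) * Ex (tr p M) M n g := by
  have hprod : ∀ (m : ℕ) (A : ℕ → Set ℕ), μ.real (⋂ k ∈ range m, X k ⁻¹' A k) =
      ∏ k ∈ range m, μ.real (X k ⁻¹' A k) := by
    intro m A
    have h1 := hS.indep.measure_inter_preimage_eq_mul (range m) (sets := A)
      (fun i _ => MeasurableSet.of_discrete)
    unfold Measure.real
    rw [h1, ENNReal.toReal_prod]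
  induction n with
  | zero =>
    intro m A g
    simp only [wd_zero, Ex_zero]
    rw [setIntegral_const, hprod, smul_eq_mul]
  | succ n ih =>
    intro m A g
    have hmA : MeasurableSet (⋂ k ∈ range m, X k ⁻¹' A k) :=
      Finset.measurableSet_biInter _ fun k _ => hS.meas k (MeasurableSet.of_discrete)
    have h1 : ∫ ω in ⋂ k ∈ range m, X k ⁻¹' A k, g (wd X M m (n + 1) ω) ∂μ =
        ∑ e ∈ range M, ∫ ω in ⋂ k ∈ range m, X k ⁻¹' A k,
          (X m ⁻¹' {x | yy M x = e}).indicator (fun ω => g (e :: wd X M (m + 1) n ω)) ω ∂μ := by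
      rw [← integral_finsetSum]
      · exact integral_congr_ae (ae_of_all _ fun ω => split_first hM m n g ω)
      · intro e _
        obtain ⟨h2, C, hC⟩ := meas_wd (M := M) hS.meas hM n (m + 1) (fun w => g (e :: w))
        apply Integrable.indicator _ (hS.meas m (MeasurableSet.of_discrete))
        exact Integrable.of_bound h2.aestronglyMeasurable C (ae_of_all _ fun ω => hC ω)
    rw [h1, Ex_succ, Finset.mul_sum]
    apply Finset.sum_congr rfl
    intro e he
    rw [Finset.mem_range] at he
    rw [setIntegral_indicator (hS.meas m (MeasurableSet.of_discrete))]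
    set A' : ℕ → Set ℕ := Function.update A m {x | yy M x = e} with hA'
    have hA'k : ∀ k ∈ range m, A' k = A k := by
      intro k hk
      rw [Finset.mem_range] at hk
      rw [hA', Function.update_of_ne (by omega)]
    have hA'm : A' m = {x | yy M x = e} := by
      rw [hA', Function.update_self]
    have h2 : (⋂ k ∈ range m, X k ⁻¹' A k) ∩ X m ⁻¹' {x | yy M x = e} =
        ⋂ k ∈ range (m + 1), X k ⁻¹' A' k := by
      rw [Finset.range_add_one, Finset.set_biInter_insert, hA'm, Set.inter_comm]
      congr 1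
      exact Set.iInter₂_congr fun k hk => by rw [hA'k k hk]
    rw [h2, ih (m + 1) A' (fun w => g (e :: w)), Finset.prod_range_succ, hA'm,
      prob_letter hS hM m he, Finset.prod_congr rfl (fun k hk => by rw [hA'k k hk])]
    ring

end

theorem t_LAW : S_LAW := by
  intro Ω _ μ _ X p hS M n g hM
  have h0 : (fun ω => g (word X M n ω)) = fun ω => g (wd X M 0 n ω) :=
    funext fun ω => by rw [word_eq]
  constructor
  · rw [h0]
    obtain ⟨h2, C, hC⟩ := meas_wd (M := M) hS.meas hM n 0 g
    exact Integrable.of_bound h2.aestronglyMeasurable C (ae_of_all _ fun ω => hC ω)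
  · have h1 := law_aux hS hM n 0 (fun _ => Set.univ) g
    simp only [Finset.range_zero, Finset.notMem_empty, Set.iInter_of_empty, Set.iInter_univ,
      Finset.prod_empty, one_mul, setIntegral_univ] at h1
    rw [← h1]
    exact integral_congr_ae (ae_of_all _ fun ω => by
      change g (word X M n ω) = _
      rw [word_eq])

end Pool.Agent.Q179.IS
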