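import Pool.Agent.Q75.IS.Stm

set_option autoImplicit false

open Finset Set

namespace Pool.Agent.Q179.IS

open Pool.Agent.Q75.IS

/-- the term of the letter `p` -/
lemma term1 {p a η : ℝ} (hp : 0 ≤ p) (ha : 0 < a) (hη : 0 ≤ η) :
    p / (p + a * (1 + η)) ≤ p / (p + a) - η * a / (1 + η) * (p / (p + a) ^ 2) := by
  have h1 : 0 < p + a := by linarith
  have h2 : 0 < p + a * (1 + η) := by positivity
  have h3 : 0 < 1 + η := by linarith
  have key : p / (p + a) - η * a / (1 + η) * (p / (p + a) ^ 2) - p / (p + a * (1 + η)) =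
      η * a * p * (p * η) / ((1 + η) * (p + a) ^ 2 * (p + a * (1 + η))) := by
    field_simp
    ring
  have h4 : 0 ≤ η * a * p * (p * η) / ((1 + η) * (p + a) ^ 2 * (p + a * (1 + η))) := by
    positivity
  linarith

lemma term2 {p a η : ℝ} (hp : 0 ≤ p) (ha : 0 < a) (hη : 0 ≤ η) (hη1 : η < 1) :
    p / (p + a * (1 - η)) ≤ p / (p + a) + η * a / (1 - η) * (p / (p + a) ^ 2) := by
  have h1 : 0 < p + a := by linarith
  have h3 : 0 < 1 - η := by linarith
  have h2 : 0 < p + a * (1 - η) := by positivity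
  have key : p / (p + a) + η * a / (1 - η) * (p / (p + a) ^ 2) - p / (p + a * (1 - η)) =
      η * a * p * (p * η) / ((1 - η) * (p + a) ^ 2 * (p + a * (1 - η))) := by
    field_simp
    ring
  have h4 : 0 ≤ η * a * p * (p * η) / ((1 - η) * (p + a) ^ 2 * (p + a * (1 - η))) := by
    positivity
  linarith

theorem t_LOSS1 : S_LOSS1 := by
  intro P M N s a hP ha hN hpsi hs
  have hN0 : (0 : ℝ) < N := by exact_mod_cast hN
  have hsN : (s : ℝ) ≤ N := by exact_mod_cast hs
  have hs0 : (0 : ℝ) ≤ s := Nat.cast_nonneg s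
  set η : ℝ := s / (2 * N) with hη
  have hη0 : 0 ≤ η := by positivity
  have hs2 : (s : ℝ) = 2 * N * η := by
    rw [hη]
    field_simp
  have hη1 : η ≤ 1 / 2 := by
    rw [hη, div_le_div_iff₀ (by positivity) (by norm_num)]
    linarith
  have h1 : ∑ i ∈ Finset.Ico 2 M, P i / (P i + a * (1 + η)) ≤
      ∑ i ∈ Finset.Ico 2 M, P i / (P i + a) - η * a / (1 + η) * N := by
    calc _ ≤ ∑ i ∈ Finset.Ico 2 M, (P i / (P i + a) - η * a / (1 + η) * (P i / (P i + a) ^ 2)) :=
          Finset.sum_le_sum fun i _ => term1 (hP i) ha hη0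
      _ = ∑ i ∈ Finset.Ico 2 M, P i / (P i + a) - η * a / (1 + η) * psi P M a := by
          rw [Finset.sum_sub_distrib, ← Finset.mul_sum]
          rfl
      _ = _ := by rw [hpsi]
  unfold FF
  rw [Nat.cast_sub hs]
  have h2 : 0 < 1 + η := by linarith
  have h3 : a * (1 + η) * ((N : ℝ) - s) + a * s - η * a / (1 + η) * N ≤
      a * N - a * s ^ 2 / (4 * N) := by
    rw [hs2]
    have key : a * N - a * (2 * N * η) ^ 2 / (4 * N) -
        (a * (1 + η) * ((N : ℝ) - 2 * N * η) + a * (2 * N * η) - η * a / (1 + η) * N) =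
        a * N * η ^ 3 / (1 + η) := by
      field_simp
      ring
    have : 0 ≤ a * N * η ^ 3 / (1 + η) := by positivity
    linarith
  linarith

theorem t_LOSS2 : S_LOSS2 := by
  intro P M N i a A hP ha hN hpsi hi2 hiM hA
  have hN0 : (0 : ℝ) < N := by exact_mod_cast hN
  have hq0 : ∀ j, 0 ≤ P j / (P j + a) ^ 2 := fun j => div_nonneg (hP j) (sq_nonneg _)
  have hsplit : A + ∑ j ∈ Finset.Ico i M, P j / (P j + a) ^ 2 = N := by
    rw [hA, ← hpsi]
    exact Finset.sum_Ico_consecutive _ hi2 hiM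
  have hA0 : 0 ≤ A := by
    rw [hA]
    exact Finset.sum_nonneg fun j _ => hq0 j
  have hAN : A ≤ N := by
    have : 0 ≤ ∑ j ∈ Finset.Ico i M, P j / (P j + a) ^ 2 := Finset.sum_nonneg fun j _ => hq0 j
    linarith
  set η : ℝ := A / (2 * N) with hη
  have hη0 : 0 ≤ η := by positivity
  have hA2 : A = 2 * N * η := by
    rw [hη]
    field_simp
  have hη1 : η ≤ 1 / 2 := by
    rw [hη, div_le_div_iff₀ (by positivity) (by norm_num)]
    linarith
  have h2 : 0 < 1 - η := by linarith
  have h1 : ∑ j ∈ Finset.Ico i M, P j / (P j + a * (1 - η)) ≤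
      ∑ j ∈ Finset.Ico i M, P j / (P j + a) + η * a / (1 - η) * (N - A) := by
    calc _ ≤ ∑ j ∈ Finset.Ico i M, (P j / (P j + a) + η * a / (1 - η) * (P j / (P j + a) ^ 2)) :=
          Finset.sum_le_sum fun j _ => term2 (hP j) ha hη0 (by linarith)
      _ = ∑ j ∈ Finset.Ico i M, P j / (P j + a) +
          η * a / (1 - η) * ∑ j ∈ Finset.Ico i M, P j / (P j + a) ^ 2 := by
          rw [Finset.sum_add_distrib, ← Finset.mul_sum]
      _ = _ := by
          congr 2
          linarith
  have h4 : ∑ j ∈ Finset.Ico 2 i, rh P a j + ∑ j ∈ Finset.Ico i M, P j / (P j + a) =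
      ∑ j ∈ Finset.Ico 2 M, P j / (P j + a) := Finset.sum_Ico_consecutive _ hi2 hiM
  unfold FF
  have h3 : a * (1 - η) * N + η * a / (1 - η) * (N - A) ≤ a * N - a * A ^ 2 / (4 * N) := by
    rw [hA2]
    have key : a * N - a * (2 * N * η) ^ 2 / (4 * N) -
        (a * (1 - η) * N + η * a / (1 - η) * (N - 2 * N * η)) =
        a * N * η ^ 3 / (1 - η) := by
      field_simp
      ring
    have : 0 ≤ a * N * η ^ 3 / (1 - η) := by positivity
    linarith
  linarith

theorem t_AST : S_AST := by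
  intro P M N hP hsum hN
  have hN0 : (0 : ℝ) < N := by exact_mod_cast hN
  have hsq : 0 < Real.sqrt N := Real.sqrt_pos.2 hN0
  have ht0 : 0 < 1 / Real.sqrt N := by positivity
  by_cases h0 : psi P M 0 ≤ N
  · exact ⟨0, le_rfl, ht0.le, h0, Or.inl rfl⟩
  · push Not at h0
    have hcont : ContinuousOn (fun a => psi P M a) (Icc 0 (1 / Real.sqrt N)) := by
      unfold psi
      apply continuousOn_finsetSum
      intro i _
      rcases (hP i).eq_or_lt with h | h
      · simp only [← h, zero_div]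
        exact continuousOn_const
      · apply ContinuousOn.div continuousOn_const (by fun_prop)
        intro x hx
        have : 0 < P i + x := by linarith [hx.1]
        positivity
    have h1 : psi P M (1 / Real.sqrt N) ≤ N := by
      unfold psi
      calc ∑ i ∈ Finset.Ico 2 M, P i / (P i + 1 / Real.sqrt N) ^ 2
          ≤ ∑ i ∈ Finset.Ico 2 M, P i * N := by
            apply Finset.sum_le_sum
            intro i _
            have h2 : (1 / Real.sqrt N) ^ 2 ≤ (P i + 1 / Real.sqrt N) ^ 2 :=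
              pow_le_pow_left₀ ht0.le (by linarith [hP i]) 2
            have h3 : (1 / Real.sqrt N) ^ 2 = 1 / N := by
              rw [div_pow, one_pow, Real.sq_sqrt hN0.le]
            rw [h3] at h2
            have h4 : 0 < (P i + 1 / Real.sqrt N) ^ 2 := lt_of_lt_of_le (by positivity) h2
            rw [div_le_iff₀ h4, mul_assoc]
            have h5 : 1 ≤ N * (P i + 1 / Real.sqrt N) ^ 2 := by
              rw [div_le_iff₀ hN0] at h2
              linarith
            nlinarith [hP i]
        _ = (∑ i ∈ Finset.Ico 2 M, P i) * N := by rw [Finset.sum_mul]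
        _ ≤ 1 * N := mul_le_mul_of_nonneg_right hsum hN0.le
        _ = N := one_mul _
    have h2 := intermediate_value_Icc' ht0.le hcont
    obtain ⟨a, ha, hpa⟩ := h2 ⟨h1, h0.le⟩
    exact ⟨a, ha.1, ha.2, le_of_eq hpa, Or.inr hpa⟩

end Pool.Agent.Q179.IS
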